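import Pool.Agent.Y124.TD.Bs
import Pool.Agent.Y124.TD.Mx
import Pool.Agent.Y113.GG.Fun

/-!
# Independence of the values of monomials in the entries of a fundamental matrix at several points
-/

set_option autoImplicit false

open PowerSeries Pool.Agent.Y113 Pool.Agent.Y120.GF Pool.Agent.Y120.GH

namespace Pool.Agent.Y124.TG

open Pool.Agent.Y124.TD Pool.Agent.Y113.GG Pool.Agent.Y37.GF Pool.Agent.Y118.HG

/-- independence of the values -/
theorem base_li2 {σ : Type} [Fintype σ] {F : ℕ → σ → ℚ⟦X⟧} {Tg : ℕ → Polynomial ℤ} {q₀ E₀ : ℕ} {b₀ : σ}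
    (hone : ∀ g, F g b₀ = 1) (hsy : ∀ g : ℕ, GSys q₀ (((g : ℝ) + 2) ^ E₀) (Tg g) (F g))
    (hnz : ∀ g t : ℕ, ((g : ℝ) + 2) ^ E₀ ≤ (t : ℝ) → Polynomial.aeval (1 / (t : ℝ)) (Tg g) ≠ 0) (D : ℕ) :
    ∃ E : ℕ, ∀ (H t : ℕ), (H + 2) ^ E ≤ t →
    ∀ g : Fin D → ℕ, (∀ l, g l ≤ H) → LinearIndependent (Polynomial ℚ) (fun b : Fin D → σ => ∏ l, F (g l) (b l)) →
      LinearIndependent ℚ (fun b : Fin D → σ => ∏ l, ev (t : ℝ) (F (g l) (b l))) := by
  classical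
  obtain ⟨q, E₁, hE₁⟩ := gsys_multi F Tg q₀ E₀ hsy D
  obtain ⟨E₂, hE₂⟩ := Pool.Agent.Y120.GF.t_G (Fintype.card (Fin D → σ)) q
  refine ⟨(max E₁ 1 + 1) * max E₂ 1 + (E₀ + 2), ?_⟩
  intro H t hHt g hgH hli
  have hH1 : (1 : ℝ) ≤ (H : ℝ) + 2 := by
    have : (0 : ℝ) ≤ H := by positivity
    linarith
  have htR : (((H : ℝ) + 2)) ^ ((max E₁ 1 + 1) * max E₂ 1 + (E₀ + 2)) ≤ (t : ℝ) := by exact_mod_cast hHt
  have hb1 : ((H : ℝ) + 2) ^ ((max E₁ 1 + 1) * max E₂ 1) ≤ (t : ℝ) :=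
    (pow_le_pow_right₀ hH1 (by omega)).trans htR
  have hb2 : ((H : ℝ) + 2) ^ (E₀ + 2) ≤ (t : ℝ) := (pow_le_pow_right₀ hH1 (by omega)).trans htR
  have hb3 : ((H : ℝ) + 2) ^ E₀ ≤ (t : ℝ) := (pow_le_pow_right₀ hH1 (by omega)).trans htR
  have ht0 : (0 : ℝ) < t := lt_of_lt_of_le (by positivity) hb3
  have hsys := (hE₁ H g hgH).mono le_rfl (pow_le_pow_right₀ hH1 (le_max_left E₁ 1))
  have hC : (2 * ((H : ℝ) + 2) ^ (max E₁ 1)) ^ E₂ ≤ (t : ℝ) := by
    have h1 : (2 * ((H : ℝ) + 2) ^ (max E₁ 1)) ^ E₂ ≤ (2 * ((H : ℝ) + 2) ^ (max E₁ 1)) ^ (max E₂ 1) := by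
      refine pow_le_pow_right₀ ?_ (le_max_left _ _)
      have : (1 : ℝ) ≤ ((H : ℝ) + 2) ^ (max E₁ 1) := one_le_pow₀ hH1
      linarith
    exact h1.trans ((pow_base H _ _).trans hb1)
  have hgl : ∀ l, (((g l : ℕ) : ℝ) + 2) ^ E₀ ≤ ((H : ℝ) + 2) ^ E₀ := by
    intro l
    refine pow_le_pow_left₀ (by positivity) ?_ _
    have : ((g l : ℕ) : ℝ) ≤ H := by exact_mod_cast hgH l
    linarith
  have hne : Polynomial.aeval (1 / (t : ℝ)) (∏ l, Tg (g l)) ≠ 0 := by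
    rw [map_prod, Finset.prod_ne_zero_iff]
    intro l _
    exact hnz _ _ ((hgl l).trans hb3)
  have hLI := hE₂ (Fin D → σ) (((H : ℝ) + 2) ^ (max E₁ 1)) (∏ l, Tg (g l)) (fun b => ∏ l, F (g l) (b l)) (fun _ => b₀) t
    le_rfl hsys (Finset.prod_eq_one fun l _ => hone _) hli hC hne
  -- multiplicativity
  have hcv : ∀ l b, Pool.Agent.Y113.Cv (t : ℝ) (F (g l) b) := by
    intro l b
    have h1 := (hsy (g l)).size b
    set B : ℝ := ((g l : ℝ) + 2) ^ E₀ with hB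
    have hB0 : 0 ≤ B := by positivity
    refine Pool.Agent.Y113.Cv.of_bound (A := B) (B := B) ht0 hB0 ?_ fun m => ?_
    · have h2 : B ≤ ((H : ℝ) + 2) ^ E₀ := hgl l
      have h3 : ((H : ℝ) + 2) ^ E₀ < ((H : ℝ) + 2) ^ (E₀ + 2) := pow_lt_pow_right₀ (by
        have : (0 : ℝ) ≤ H := by positivity
        linarith) (by omega)
      linarith
    · exact (h1 m).trans (le_of_eq (pow_succ' _ _))
  have hev : ∀ b : Fin D → σ, ev (t : ℝ) (∏ l, F (g l) (b l)) = ∏ l, ev (t : ℝ) (F (g l) (b l)) := by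
    intro b
    exact Pool.Agent.Y113.Cv.ev_prod ht0 Finset.univ (fun l => F (g l) (b l)) fun l _ => hcv l _
  simp only [hev] at hLI
  exact hLI

variable {n : ℕ}

/-- independence of the values of the words of an independent set at separated points -/
theorem base_fam {f : Polynomial ℚ} {A : Fin n → Fin n → Polynomial ℚ} {Z W : Fin n → Fin n → ℚ⟦X⟧} (h : Dat f A Z W) :
    ∃ G0 : ℕ, 0 < G0 ∧ ∀ (δ k : ℕ) (S₀ : Finset (Fin δ → Option (Fin n × Fin n))), (fun _ => none) ∈ S₀ →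
      (∀ g : (Fin δ → Option (Fin n × Fin n)) → Polynomial ℚ, ∑ i ∈ S₀, (g i : ℚ⟦X⟧) * wd Z i = 0 → ∀ i ∈ S₀, g i = 0) →
      ∃ E : ℕ, ∀ H t : ℕ, (H + 2) ^ E ≤ t → ∀ g : Fin k → ℕ, SepN G0 g → (∀ l, g l ≤ H) →
        LinearIndependent ℚ (fun s : Fin k → S₀ => ∏ l, wv (zv Z ((t : ℝ) - g l)) (s l : Fin δ → Option (Fin n × Fin n))) := by
  classical
  obtain ⟨C, hC, hCZ, hCW⟩ := h.bound
  obtain ⟨G0, hG0⟩ := exists_nat_gt (2 * C)
  have hG0pos : 0 < G0 := by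
    have : (0 : ℝ) < G0 := by linarith
    exact_mod_cast this
  refine ⟨G0, hG0pos, fun δ k S₀ hnone hS₀ => ?_⟩
  obtain ⟨B, hSB, hLI, a, M, ha, hM⟩ := max_li_ext (fun b : Fin δ → Option (Fin n × Fin n) => wd Z b) S₀ hS₀
  obtain ⟨q, E, TT, hE, hE'⟩ := exists_sys h.reg h.sys h.inv h.gZ h.gW δ B a M ha hM
  have hprod := Pool.Agent.Y678.HG.gsys_prod TT
    (fun g (k : B) => ph g (wd Z (k : Fin δ → Option (Fin n × Fin n)))) q E hE
  have hTT : ∀ g, TT g ≠ 0 := by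
    intro g h0
    obtain ⟨t, ht⟩ := exists_nat_ge (((g : ℝ) + 2) ^ E)
    have := hE' g t ht
    rw [h0, map_zero] at this
    exact this rfl
  have hone : ∀ g, ph g (wd Z ((⟨fun _ => none, hSB hnone⟩ : B) : Fin δ → Option (Fin n × Fin n))) = 1 := by
    intro g
    have h3 : wd Z (fun _ : Fin δ => (none : Option (Fin n × Fin n))) = 1 := by
      unfold wd lt
      simp
    show ph g (wd Z (fun _ : Fin δ => (none : Option (Fin n × Fin n)))) = 1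
    rw [h3, map_one]
  have hli := li_shifts h.reg h.sys h.inv hC hCZ hCW B hLI (fun r g => by
    obtain ⟨q', E', hq⟩ := hprod r
    exact ⟨q', ((((Finset.univ.sup g : ℕ) : ℝ)) + 2) ^ E', ∏ l, TT (g l),
      Finset.prod_ne_zero_iff.2 fun l _ => hTT _, hq (Finset.univ.sup g) g fun l => Finset.le_sup (Finset.mem_univ l)⟩) hG0
  obtain ⟨E₄, hE₄⟩ := base_li2 (F := fun g (k : B) => ph g (wd Z (k : Fin δ → Option (Fin n × Fin n)))) hone hE hE' k
  obtain ⟨r, hr⟩ := exists_nat_ge (C + 1)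
  refine ⟨E₄ + (r + 1), ?_⟩
  intro H t hHt g hg hgH
  have h1 : (H + 2) ^ E₄ ≤ t := (Nat.pow_le_pow_right (by omega) (by omega)).trans hHt
  have hHt' : H + r < t := by
    have h1 : (H + 2) ^ (r + 1) ≤ t := (Nat.pow_le_pow_right (by omega) (by omega)).trans hHt
    have h2 : r < 2 ^ r := Nat.lt_two_pow_self
    have h3 : 2 ^ r ≤ (H + 2) ^ r := Nat.pow_le_pow_left (by omega) _
    have h4 : (r + 1) * (H + 2) ≤ (H + 2) ^ (r + 1) := by
      rw [pow_succ]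
      exact Nat.mul_le_mul_right _ (by omega)
    have h5 : H + r < (r + 1) * (H + 2) := by nlinarith
    omega
  have hbase := hE₄ H t h1 g hgH (hli k g hg)
  have hbase2 := hbase.map' ((Algebra.linearMap ℝ ℂ).restrictScalars ℚ) (by
      rw [LinearMap.ker_eq_bot]
      intro x y hxy
      exact Complex.ofReal_injective hxy)
  have hbase3 := hbase2.comp (fun (s : Fin k → S₀) (l : Fin k) => (⟨s l, hSB (s l).2⟩ : B)) (by
    intro s s' hss
    funext l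
    have h2 := congrArg (fun b : B => (b : Fin δ → Option (Fin n × Fin n))) (congrFun hss l)
    exact Subtype.ext h2)
  have heq : (fun s : Fin k → S₀ => ∏ l, wv (zv Z ((t : ℝ) - g l)) (s l : Fin δ → Option (Fin n × Fin n))) =
      (((Algebra.linearMap ℝ ℂ).restrictScalars ℚ) ∘ (fun b : Fin k → B => ∏ l, ev (t : ℝ) (ph (g l) (wd Z (b l : Fin δ → Option (Fin n × Fin n)))))) ∘
        (fun (s : Fin k → S₀) (l : Fin k) => (⟨s l, hSB (s l).2⟩ : B)) := by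
    funext s
    show _ = ((∏ l, ev (t : ℝ) (ph (g l) (wd Z (s l : Fin δ → Option (Fin n × Fin n)))) : ℝ) : ℂ)
    push_cast
    refine Finset.prod_congr rfl fun l _ => ?_
    rw [ev_phwd hC hCZ _ (g l)]
    have h4 : g l + r < t := by
      have := hgH l
      omega
    have h5 : ((g l : ℝ) + r) < t := by exact_mod_cast h4
    linarith
  rw [heq]
  exact hbase3

end Pool.Agent.Y124.TG
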