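import Pool.Agent.Y124.TG.Bg
import Pool.Agent.Y124.TD.Ap2
import Pool.Agent.Y113.GG.Main

/-!
# Monomials in an algebraically independent family of entries of a fundamental matrix
-/

set_option autoImplicit false

open PowerSeries

namespace Pool.Agent.Y124.TG

open Pool.Agent.Y113.GG Pool.Agent.Y37.GF Pool.Agent.Y118.HG

variable {n d : ℕ}

/-- the word of a monomial -/
def wT (T : Fin d → Fin n × Fin n) {δ : ℕ} (s : Fin d → Fin (δ + 1)) (j : Fin (d * δ)) : Option (Fin n × Fin n) :=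
  if ((finProdFinEquiv.symm j).2 : ℕ) < (s (finProdFinEquiv.symm j).1 : ℕ) then some (T (finProdFinEquiv.symm j).1) else none

lemma wv_wT {M : Type} [CommMonoid M] (T : Fin d → Fin n × Fin n) {δ : ℕ} (s : Fin d → Fin (δ + 1)) (z : Fin n × Fin n → M) :
    wv z (wT T s) = ∏ i, z (T i) ^ (s i : ℕ) := by
  rw [wv]
  let f : Fin d × Fin δ → M := fun pq => if (pq.2 : ℕ) < (s pq.1 : ℕ) then z (T pq.1) else 1
  have h1 : ∀ j, (wT T s j).elim 1 z = f (finProdFinEquiv.symm j) := by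
    intro j
    rw [wT]
    show _ = if ((finProdFinEquiv.symm j).2 : ℕ) < (s (finProdFinEquiv.symm j).1 : ℕ) then z (T (finProdFinEquiv.symm j).1) else 1
    split_ifs
    · rfl
    · rfl
  rw [Finset.prod_congr rfl fun j _ => h1 j, Equiv.prod_comp finProdFinEquiv.symm f, Fintype.prod_prod_type]
  refine Finset.prod_congr rfl fun p _ => ?_
  exact Pool.Agent.Y124.TD.prod_if δ (s p : ℕ) (Nat.lt_succ_iff.1 (s p).2) (z (T p))

/-- independence of the monomials -/
lemma li_box {A : Type} [CommRing A] [Algebra (Polynomial ℚ) A] {x : Fin d → A} (h : AlgebraicIndependent (Polynomial ℚ) x) (δ : ℕ) :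
    LinearIndependent (Polynomial ℚ) (fun s : Fin d → Fin (δ + 1) => ∏ i, x i ^ (s i : ℕ)) := by
  classical
  rw [Fintype.linearIndependent_iff]
  intro g hg
  let f : (Fin d → Fin (δ + 1)) → (Fin d →₀ ℕ) := fun s => Finsupp.equivFunOnFinite.symm fun i => (s i : ℕ)
  have hf : Function.Injective f := by
    intro s s' hss
    funext i
    exact Fin.ext (DFunLike.congr_fun hss i)
  have h1 := (algebraicIndependent_iff.1 h) (∑ s, MvPolynomial.monomial (f s) (g s)) (by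
    rw [map_sum, ← hg]
    refine Finset.sum_congr rfl fun s _ => ?_
    rw [MvPolynomial.aeval_monomial, Algebra.smul_def, Finsupp.prod_fintype]
    · rfl
    · intro i
      exact pow_zero _)
  intro s
  have h2 := congrArg (MvPolynomial.coeff (f s)) h1
  rw [MvPolynomial.coeff_sum, Finset.sum_eq_single s] at h2
  · rwa [MvPolynomial.coeff_monomial, if_pos rfl, MvPolynomial.coeff_zero] at h2
  · intro s' _ hs'
    rw [MvPolynomial.coeff_monomial, if_neg (fun h => hs' (hf h))]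
  · intro hs
    exact absurd (Finset.mem_univ s) hs

/-- a relation in a dependent family -/
lemma dep_box {A : Type} [CommRing A] [Algebra (Polynomial ℚ) A] {x : Fin d → A} (h : ¬ AlgebraicIndependent (Polynomial ℚ) x) :
    ∃ (δ : ℕ) (g : (Fin d → Fin (δ + 1)) → Polynomial ℚ) (s₀ : Fin d → Fin (δ + 1)), g s₀ ≠ 0 ∧
      ∑ s, g s • ∏ i, x i ^ (s i : ℕ) = 0 := by
  classical
  rw [algebraicIndependent_iff] at h
  push Not at h
  obtain ⟨P, hP, hP0⟩ := h
  obtain ⟨δ, hδ⟩ : ∃ δ : ℕ, ∀ i, P.degreeOf i ≤ δ := ⟨Finset.univ.sup fun i => P.degreeOf i, fun i => Finset.le_sup (f := fun i => P.degreeOf i) (Finset.mem_univ i)⟩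
  let f : (Fin d → Fin (δ + 1)) → (Fin d →₀ ℕ) := fun s => Finsupp.equivFunOnFinite.symm fun i => (s i : ℕ)
  have hf : Function.Injective f := by
    intro s s' hss
    funext i
    exact Fin.ext (DFunLike.congr_fun hss i)
  have hsub : P.support ⊆ Finset.univ.image f := by
    intro m hm
    rw [Finset.mem_image]
    refine ⟨fun i => ⟨m i, Nat.lt_succ_of_le ?_⟩, Finset.mem_univ _, ?_⟩
    · refine le_trans ?_ (hδ i)
      rw [MvPolynomial.degreeOf_eq_sup]
      exact Finset.le_sup (f := fun m : Fin d →₀ ℕ => m i) hm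
    · ext i
      rfl
  have hne : ∃ m, P.coeff m ≠ 0 := by
    by_contra hcon
    push Not at hcon
    exact hP0 (MvPolynomial.ext _ _ fun m => by rw [hcon m, MvPolynomial.coeff_zero])
  obtain ⟨m, hm⟩ := hne
  obtain ⟨s₀, -, hs₀⟩ := Finset.mem_image.1 (hsub (MvPolynomial.mem_support_iff.2 hm))
  refine ⟨δ, fun s => P.coeff (f s), s₀, by show P.coeff (f s₀) ≠ 0; rw [hs₀]; exact hm, ?_⟩
  rw [← hP, MvPolynomial.aeval_def, MvPolynomial.eval₂_eq', Finset.sum_subset hsub, Finset.sum_image fun s _ s' _ hss => hf hss]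
  · refine Finset.sum_congr rfl fun s _ => ?_
    rw [Algebra.smul_def]
    rfl
  · intro m _ hm
    rw [MvPolynomial.notMem_support_iff.1 hm, map_zero, zero_mul]

/-- independence of the values at several points -/
theorem base_T {f : Polynomial ℚ} {A : Fin n → Fin n → Polynomial ℚ} {Z W : Fin n → Fin n → ℚ⟦X⟧} (h : Dat f A Z W) :
    ∃ G0 : ℕ, 0 < G0 ∧ ∀ {d : ℕ} (T : Fin d → Fin n × Fin n), AlgebraicIndependent (Polynomial ℚ) (fun i => Z (T i).1 (T i).2) →
      ∀ δ k : ℕ, ∃ E : ℕ, ∀ H t : ℕ, (H + 2) ^ E ≤ t → ∀ g : Fin k → ℕ, SepN G0 g → (∀ l, g l ≤ H) →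
        LinearIndependent ℚ (fun s : Fin k × Fin d → Fin (δ + 1) => ∏ i, zv Z ((t : ℝ) - g i.1) (T i.2) ^ (s i : ℕ)) := by
  classical
  obtain ⟨G0, hG0, hbase⟩ := base_fam h
  refine ⟨G0, hG0, fun {d} T hT δ k => ?_⟩
  have hli := li_box hT δ
  have hwd : ∀ s : Fin d → Fin (δ + 1), wd Z (wT T s) = ∏ i, Z (T i).1 (T i).2 ^ (s i : ℕ) :=
    fun s => wv_wT T s (fun p => Z p.1 p.2)
  have hinj : Function.Injective (wT T : (Fin d → Fin (δ + 1)) → (Fin (d * δ) → Option (Fin n × Fin n))) := by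
    intro s s' hss
    apply hli.injective
    show ∏ i, Z (T i).1 (T i).2 ^ (s i : ℕ) = ∏ i, Z (T i).1 (T i).2 ^ (s' i : ℕ)
    rw [← hwd, ← hwd, hss]
  obtain ⟨E, hE⟩ := hbase (d * δ) k (Finset.univ.image (wT T)) (Finset.mem_image.2 ⟨fun _ => 0, Finset.mem_univ _, by
    funext j
    rw [wT, if_neg]
    simp⟩) (by
    intro g hg
    rw [Finset.sum_image fun s _ s' _ hss => hinj hss] at hg
    have h1 := (Fintype.linearIndependent_iff.1 hli) (fun s => g (wT T s)) (by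
      rw [← hg]
      refine Finset.sum_congr rfl fun s _ => ?_
      rw [Pool.Agent.Y120.GF.psmul, hwd])
    intro i hi
    obtain ⟨s, -, rfl⟩ := Finset.mem_image.1 hi
    exact h1 s)
  refine ⟨E, fun H t hHt g hg hgH => ?_⟩
  have h3 := (hE H t hHt g hg hgH).comp (fun (s : Fin k × Fin d → Fin (δ + 1)) (l : Fin k) =>
      (⟨wT T fun i => s (l, i), Finset.mem_image_of_mem _ (Finset.mem_univ _)⟩ : Finset.univ.image (wT T (δ := δ)))) (by
    intro s s' hss
    funext ⟨l, i⟩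
    have h4 := congrFun hss l
    have h5 := congrArg (fun p : (Finset.univ.image (wT T (δ := δ))) => (p : Fin (d * δ) → Option (Fin n × Fin n))) h4
    exact congrFun (hinj (a₁ := fun i => s (l, i)) (a₂ := fun i => s' (l, i)) h5) i)
  have h4 : (fun s : Fin k × Fin d → Fin (δ + 1) => ∏ i, zv Z ((t : ℝ) - g i.1) (T i.2) ^ (s i : ℕ)) =
      (fun s : Fin k → Finset.univ.image (wT T (δ := δ)) => ∏ l, wv (zv Z ((t : ℝ) - g l)) (s l : Fin (d * δ) → Option (Fin n × Fin n))) ∘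
        (fun (s : Fin k × Fin d → Fin (δ + 1)) (l : Fin k) =>
          (⟨wT T fun i => s (l, i), Finset.mem_image_of_mem _ (Finset.mem_univ _)⟩ : Finset.univ.image (wT T (δ := δ)))) := by
    funext s
    show _ = ∏ l, wv (zv Z ((t : ℝ) - g l)) (wT T fun i => s (l, i))
    rw [Fintype.prod_prod_type]
    refine Finset.prod_congr rfl fun l _ => ?_
    rw [wv_wT]
  rw [h4]
  exact h3

/-- the value of a relation -/
lemma rel_val {Z : Fin n → Fin n → ℚ⟦X⟧} {C : ℝ} (hC : 1 ≤ C)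
    (hZ : ∀ i j m, |((coeff m (Z i j) : ℚ) : ℝ)| ≤ C ^ (m + 1)) (T : Fin d → Fin n × Fin n) {δ : ℕ}
    (g : (Fin d → Fin (δ + 1)) → Polynomial ℚ) (hg : ∑ s, g s • ∏ i, Z (T i).1 (T i).2 ^ (s i : ℕ) = 0) {x : ℝ} (hx : C < x) :
    ∑ s, ((Polynomial.aeval (1 / x) (g s) : ℝ) : ℂ) * ∏ i, zv Z x (T i) ^ (s i : ℕ) = 0 := by
  have hx0 : 0 < x := by linarith
  have hz : |1 / x| ≤ 1 / x := by rw [abs_of_pos (by positivity)]
  have hwd : ∀ s : Fin d → Fin (δ + 1), wd Z (wT T s) = ∏ i, Z (T i).1 (T i).2 ^ (s i : ℕ) :=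
    fun s => wv_wT T s (fun p => Z p.1 p.2)
  have h1 : ∑ s, (g s : ℚ⟦X⟧) * wd Z (wT T s) = 0 := by
    rw [← hg]
    refine Finset.sum_congr rfl fun s _ => ?_
    rw [Pool.Agent.Y120.GF.psmul, hwd]
  have h2 : ((E (∑ s, (g s : ℚ⟦X⟧) * wd Z (wT T s)) (1 / x) : ℝ) : ℂ) = ((E (0 : ℚ⟦X⟧) (1 / x) : ℝ) : ℂ) := by rw [h1]
  have e3 := E_sum (r := 1 / x) (z := 1 / x) Finset.univ (F := fun s => (g s : ℚ⟦X⟧) * wd Z (wT T s)) (by positivity)
    (fun s _ => SR.mul (by positivity) (SR.poly _ _) (ev_wd hC hZ (wT T s) hx).1) hz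
  have e0 : E (0 : ℚ⟦X⟧) (1 / x) = 0 := by
    have h := E_poly (0 : Polynomial ℚ) (1 / x)
    simpa using h
  rw [e0, e3, Complex.ofReal_sum, Complex.ofReal_zero] at h2
  rw [← h2]
  refine Finset.sum_congr rfl fun s _ => ?_
  rw [E_mul (SR.poly _ _) (ev_wd hC hZ (wT T s) hx).1 hz, E_poly, Complex.ofReal_mul]
  congr 1
  have h3 := (ev_wd hC hZ (wT T s) hx).2
  rw [ev_eq] at h3
  rw [h3, wv_wT]

/-- a polynomial at large integers -/
lemma large_ne {g : Polynomial ℚ} (hg : g ≠ 0) : ∃ t₁ : ℕ, ∀ t : ℕ, t₁ ≤ t → Polynomial.eval (1 / (t : ℚ)) g ≠ 0 := by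
  classical
  have hfin : Set.Finite {t : ℕ | Polynomial.eval (1 / (t : ℚ)) g = 0} := by
    refine Set.Finite.of_finite_image (f := fun t : ℕ => (1 / (t : ℚ))) (g.roots.toFinset.finite_toSet.subset ?_) ?_
    · rintro _ ⟨t, ht, rfl⟩
      rw [Finset.mem_coe, Multiset.mem_toFinset, Polynomial.mem_roots hg]
      exact ht
    · intro t _ t' _ htt
      simp only [one_div, inv_inj, Nat.cast_inj] at htt
      exact htt
  obtain ⟨N, hN⟩ := hfin.bddAbove
  refine ⟨N + 1, fun t ht h0 => ?_⟩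
  have h1 : t ≤ N := hN h0
  omega

end Pool.Agent.Y124.TG
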