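import Pool.Agent.Y124.TG.Rf

/-!
# The truncated transcendence degree at several points
-/

set_option autoImplicit false

open Module Finset

namespace Pool.Agent.Y124.TG

open Pool.Agent.Y124.TD Pool.Agent.Y113.GG Pool.Agent.Y118.HG

variable {n d : ℕ}

open PowerSeries in
/-- **The core** -/
theorem core {f : Polynomial ℚ} {A : Fin n → Fin n → Polynomial ℚ} {Z W : Fin n → Fin n → ℚ⟦X⟧} (h : Dat f A Z W) :
    ∃ G0 : ℕ, 0 < G0 ∧ ∀ {d : ℕ} (T : Fin d → Fin n × Fin n), AlgebraicIndependent (Polynomial ℚ) (fun i => Z (T i).1 (T i).2) →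
      ∀ (k δ D s m M : ℕ) (Φ : ℕ → ℕ → ℕ), ∃ E : ℕ, ∀ H t : ℕ, (H + 2) ^ E ≤ t → ∀ g : Fin k → ℕ, SepN G0 g → (∀ l, g l ≤ H) →
        ∀ (K : IntermediateField ℚ ℂ) [FiniteDimensional ℚ K], finrank ℚ K ≤ D →
          ∀ (ι : Type) [Fintype ι], Fintype.card ι = M → ∀ z : ι → ℂ,
            (∀ (c e : ℕ) (W₁ : Submodule K ℂ), (1 : ℂ) ∈ W₁ → (∀ x, z x ∈ W₁) → GR c e W₁ →
              ∃ (W₂ : Submodule K ℂ) (p : ℂ), (1 : ℂ) ∈ W₂ ∧ GR (Φ c e) (e + s) W₂ ∧ p ≠ 0 ∧ p ∈ W₂ ^ m ∧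
                ∀ l i, p * zv Z ((t : ℝ) - g l) (T i) ∈ W₂ ^ m) →
            ∃ σ : Fin (k * d - s) → ι, Function.Injective σ ∧ LIb K δ (fun i => z (σ i)) := by
  classical
  obtain ⟨G0, hG0, hbase⟩ := base_T h
  refine ⟨G0, hG0, fun {d} T hT k δ D s m M Φ => ?_⟩
  suffices key : ∃ E : ℕ, ∀ H t : ℕ, (H + 2) ^ E ≤ t → ∀ g : Fin k → ℕ, SepN G0 g → (∀ l, g l ≤ H) →
        ∀ (K : IntermediateField ℚ ℂ) [FiniteDimensional ℚ K], finrank ℚ K ≤ D →
          ∀ (ι : Type) [Fintype ι], Fintype.card ι = M → ∀ z : ι → ℂ,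
            (∀ (c e : ℕ) (W₁ : Submodule K ℂ), (1 : ℂ) ∈ W₁ → (∀ x, z x ∈ W₁) → GR c e W₁ →
              ∃ (W₂ : Submodule K ℂ) (p : ℂ), (1 : ℂ) ∈ W₂ ∧ GR (Φ c e) (e + s) W₂ ∧ p ≠ 0 ∧ p ∈ W₂ ^ m ∧
                ∀ l i, p * zv Z ((t : ℝ) - g l) (T i) ∈ W₂ ^ m) →
            ∀ (e : ℕ) (σ : Fin e → ι), e ≤ Fintype.card ι → LIb K δ (fun i => z (σ i)) →
              (∀ x, x ∉ Set.range σ → ¬ LIb K δ (Fin.cons (z x) (fun i => z (σ i)) : Fin (e + 1) → ℂ)) → k * d - s ≤ e by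
    obtain ⟨E, hE⟩ := key
    refine ⟨E, fun H t hHt g hg hgH K _ hK ι _ hι z hz => ?_⟩
    obtain ⟨e, σ, hσ, hek, hLI, hmax⟩ := exists_max K δ z
    have h1 := hE H t hHt g hg hgH K hK ι hι z hz e σ hek hLI hmax
    exact ⟨fun i => σ (Fin.castLE h1 i), hσ.comp (Fin.castLE_injective h1), hLI.comp (Fin.castLE h1) (Fin.castLE_injective h1)⟩
  by_cases hk : k * d ≤ s
  · refine ⟨0, ?_⟩
    intro H t _ g _ _ K _ _ ι _ _ z _ e σ _ _ _
    have : k * d - s = 0 := by omega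
    rw [this]
    omega
  push Not at hk
  obtain ⟨c₁, hc₁⟩ := gr_max D 0 δ M
  obtain ⟨N, hN⟩ := gr_li' (Φ c₁ (k * d - s - 1)) (k * d - s - 1 + s) (k * d) m (by omega)
  obtain ⟨E, hE⟩ := hbase T hT N k
  refine ⟨E, ?_⟩
  intro H t hHt g hg hgH K _ hK ι _ hι z hz e σ hek hLI hmax
  by_contra hlt
  push Not at hlt
  have h10 : (1 : ℂ) ∈ (1 : Submodule K ℂ) := Submodule.one_le.1 le_rfl
  obtain ⟨W₁, hW₁, hzW₁, hG₁⟩ := hc₁ K 1 h10 (gr_one hK) ι hι z e σ hek hLI hmax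
  have hG₁' := hG₁.mono_exp (e' := k * d - s - 1) (by omega)
  obtain ⟨W₂, p, h12, hG₂, hp0, hp, hpz⟩ := hz c₁ _ W₁ (hW₁ h10) hzW₁ hG₁'
  refine hN K W₂ h12 hG₂ (Fin k × Fin d) (by rw [Fintype.card_prod, Fintype.card_fin, Fintype.card_fin])
    (fun i => zv Z ((t : ℝ) - g i.1) (T i.2)) p hp0 hp (fun i => hpz i.1 i.2) ?_
  exact hE H t hHt g hg hgH

/-! ## Matrices -/

variable {K : IntermediateField ℚ ℂ} {V : Submodule K ℂ}

lemma det_mem (M : Matrix (Fin n) (Fin n) ℂ) (h : ∀ i j, M i j ∈ V) : M.det ∈ V ^ n := by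
  rw [Matrix.det_apply]
  refine Submodule.sum_mem _ fun σ _ => ?_
  have h1 := mem_pow_prod (W := V) (Finset.univ : Finset (Fin n)) (fun _ => 1) (fun i => M (σ i) i) (fun i _ => by
    rw [pow_one]
    exact h _ _)
  rw [Finset.sum_const, Finset.card_univ, Fintype.card_fin, smul_eq_mul, mul_one] at h1
  rcases Int.units_eq_one_or (Equiv.Perm.sign σ) with h2 | h2
  · rw [h2, one_smul]
    exact h1
  · rw [h2, Units.smul_def, Units.val_neg, Units.val_one, neg_smul, one_smul]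
    exact Submodule.neg_mem _ h1

lemma adj_mem (h1 : (1 : ℂ) ∈ V) (M : Matrix (Fin n) (Fin n) ℂ) (h : ∀ i j, M i j ∈ V) (i j : Fin n) : M.adjugate i j ∈ V ^ n := by
  rw [Matrix.adjugate_apply]
  refine det_mem _ fun a b => ?_
  by_cases ha : a = j
  · rw [ha, Matrix.updateRow_self]
    by_cases hb : b = i
    · rw [hb, Pi.single_eq_same]
      exact h1
    · rw [Pi.single_eq_of_ne hb]
      exact Submodule.zero_mem _
  · rw [Matrix.updateRow_ne ha]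
    exact h a b

lemma mul_mem' {a b : ℕ} (M N : Matrix (Fin n) (Fin n) ℂ) (hM : ∀ i j, M i j ∈ V ^ a) (hN : ∀ i j, N i j ∈ V ^ b) (i j : Fin n) :
    (M * N) i j ∈ V ^ (a + b) := by
  rw [Matrix.mul_apply]
  exact Submodule.sum_mem _ fun k _ => pow_mem_add (hM i k) (hN k j)

/-- matrices over the field do not change the space -/
lemma mem_of_mul {M R S : Matrix (Fin n) (Fin n) ℂ} {R' S' : Matrix (Fin n) (Fin n) K}
    (hR : (R'.map (algebraMap K ℂ)) * R = 1) (hS : S * (S'.map (algebraMap K ℂ)) = 1) (h : ∀ i j, (R * M * S) i j ∈ V) (i j : Fin n) :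
    M i j ∈ V := by
  have h1 : M = (R'.map (algebraMap K ℂ)) * (R * M * S) * (S'.map (algebraMap K ℂ)) := by
    calc M = ((R'.map (algebraMap K ℂ)) * R) * M * (S * (S'.map (algebraMap K ℂ))) := by rw [hR, hS, one_mul, mul_one]
      _ = _ := by simp only [mul_assoc]
  rw [h1, Matrix.mul_apply]
  refine Submodule.sum_mem _ fun b _ => ?_
  rw [Matrix.mul_apply, mul_comm]
  have h2 : ∀ x : ℂ, (S'.map (algebraMap K ℂ)) b j * x = (S' b j) • x := fun x => by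
    rw [Algebra.smul_def]
    rfl
  rw [h2]
  refine Submodule.smul_mem _ _ (Submodule.sum_mem _ fun a _ => ?_)
  have h3 : ∀ x : ℂ, (R'.map (algebraMap K ℂ)) i a * x = (R' i a) • x := fun x => by
    rw [Algebra.smul_def]
    rfl
  rw [h3]
  exact Submodule.smul_mem _ _ (h a b)

/-- an element of a subalgebra is in a power of the space -/
lemma adjoin_mem {s : ℕ} (ω : Fin s → ℂ) {x : ℂ} (hx : x ∈ Algebra.adjoin ℚ (Set.range ω)) :
    ∃ m : ℕ, ∀ (K : IntermediateField ℚ ℂ) (V : Submodule K ℂ), (1 : ℂ) ∈ V → (∀ i, ω i ∈ V) → x ∈ V ^ m := by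
  induction hx using Algebra.adjoin_induction with
  | mem x hx =>
    obtain ⟨i, rfl⟩ := hx
    exact ⟨1, fun K V _ h => by rw [pow_one]; exact h i⟩
  | algebraMap q =>
    refine ⟨0, fun K V _ _ => ?_⟩
    have h2 := mQ (K := K) (W := V ^ 0) q (one_mem_pow (K := K) (W := V) ‹_› 0)
    rw [mul_one] at h2
    exact h2
  | add x y _ _ hx hy =>
    obtain ⟨a, ha⟩ := hx
    obtain ⟨b, hb⟩ := hy
    exact ⟨max a b, fun K V h1 h => Submodule.add_mem _ (pow_mem_mono h1 (le_max_left _ _) (ha K V h1 h))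
      (pow_mem_mono h1 (le_max_right _ _) (hb K V h1 h))⟩
  | mul x y _ _ hx hy =>
    obtain ⟨a, ha⟩ := hx
    obtain ⟨b, hb⟩ := hy
    exact ⟨a + b, fun K V h1 h => pow_mem_add (ha K V h1 h) (hb K V h1 h)⟩

/-- the relation of an algebraic number -/
lemma alg_rel {s : ℕ} (ω : Fin s → ℂ) {w : ℂ} (hw : IsAlgebraic (Algebra.adjoin ℚ (Set.range ω)) w) :
    ∃ a m : ℕ, ∃ (l : ℂ) (κ : ℕ → ℂ), l ≠ 0 ∧ l * w ^ (m + 1) = ∑ j ∈ range (m + 1), κ j * w ^ j ∧
      ∀ (K : IntermediateField ℚ ℂ) (V : Submodule K ℂ), (1 : ℂ) ∈ V → (∀ i, ω i ∈ V) → l ∈ V ^ a ∧ ∀ j, κ j ∈ V ^ a := by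
  classical
  obtain ⟨P, hP0, hP⟩ := hw
  have hinj : Function.Injective (algebraMap (Algebra.adjoin ℚ (Set.range ω)) ℂ) := Subtype.val_injective
  have hdeg : P.natDegree ≠ 0 := by
    intro h0
    have h1 := Polynomial.eq_C_of_natDegree_eq_zero h0
    rw [h1, Polynomial.aeval_C] at hP
    have h2 : P.coeff 0 = 0 := hinj (by rw [hP, map_zero])
    rw [h2, Polynomial.C_0] at h1
    exact hP0 h1
  obtain ⟨m, hm⟩ := Nat.exists_eq_succ_of_ne_zero hdeg
  choose a ha using fun j : ℕ => adjoin_mem ω (P.coeff j).2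
  refine ⟨(Finset.range (P.natDegree + 1)).sup a, m, ((P.coeff (m + 1) : Algebra.adjoin ℚ (Set.range ω)) : ℂ),
    fun j => if j ≤ m then -((P.coeff j : Algebra.adjoin ℚ (Set.range ω)) : ℂ) else 0, ?_, ?_, fun K V h1 h => ⟨?_, fun j => ?_⟩⟩
  · intro h0
    have h1 : P.leadingCoeff = 0 := by
      rw [Polynomial.leadingCoeff, hm]
      exact hinj (by rw [map_zero]; exact h0)
    exact hP0 (Polynomial.leadingCoeff_eq_zero.1 h1)
  · rw [Polynomial.aeval_eq_sum_range, hm, Finset.sum_range_succ] at hP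
    have h1 : ∀ j ∈ range (m + 1), (if j ≤ m then -((P.coeff j : Algebra.adjoin ℚ (Set.range ω)) : ℂ) else 0) * w ^ j =
        -(P.coeff j • w ^ j) := by
      intro j hj
      rw [if_pos (by rw [Finset.mem_range] at hj; omega), Algebra.smul_def]
      show -_ * _ = -(_ * _)
      rw [neg_mul]
      rfl
    rw [Finset.sum_congr rfl h1, Finset.sum_neg_distrib]
    have h2 : P.coeff (m + 1) • w ^ (m + 1) = ((P.coeff (m + 1) : Algebra.adjoin ℚ (Set.range ω)) : ℂ) * w ^ (m + 1) := by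
      rw [Algebra.smul_def]
      rfl
    rw [h2] at hP
    linear_combination hP
  · exact pow_mem_mono h1 (Finset.le_sup (f := a) (Finset.mem_range.2 (by omega))) (ha _ K V h1 h)
  · dsimp only
    split_ifs with hj
    · exact Submodule.neg_mem _ (pow_mem_mono h1 (Finset.le_sup (f := a) (Finset.mem_range.2 (by omega))) (ha _ K V h1 h))
    · exact Submodule.zero_mem _

end Pool.Agent.Y124.TG
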