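import Pool.Agent.Y124.TG.Co
import Pool.Agent.Y124.TD.Ap3

/-!
# The two lower bounds
-/

set_option autoImplicit false

open Module Finset

namespace Pool.Agent.Y124.TG

open Pool.Agent.Y124.TD Pool.Agent.Y113.GG Pool.Agent.Y118.HG

variable {n d : ℕ}

open PowerSeries in
/-- the matrix of the values -/
noncomputable def Zm (Z : Fin n → Fin n → ℚ⟦X⟧) (x : ℝ) : Matrix (Fin n) (Fin n) ℂ := Matrix.of fun i j => zv Z x (i, j)

open PowerSeries Pool.Agent.Y37.GF in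
/-- the inverse matrix -/
lemma inv_val {Z W : Fin n → Fin n → ℚ⟦X⟧} (hinv : ∀ i j, ∑ k, W i k * Z k j = if i = j then 1 else 0) {C : ℝ} (hC : 1 ≤ C)
    (hZ : ∀ i j m, |((coeff m (Z i j) : ℚ) : ℝ)| ≤ C ^ (m + 1)) (hW : ∀ i j m, |((coeff m (W i j) : ℚ) : ℝ)| ≤ C ^ (m + 1))
    {x : ℝ} (hx : C < x) : Zm W x * Zm Z x = 1 := by
  classical
  have hx0 : 0 < x := by linarith
  have hz : |1 / x| ≤ 1 / x := by rw [abs_of_pos (by positivity)]
  ext i j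
  rw [Matrix.mul_apply, Matrix.one_apply]
  have h1 : ∀ k, SR (1 / x) (W i k * Z k j) := fun k => SR.mul (by positivity) (sr_of hC (hW i k) hx) (sr_of hC (hZ k j) hx)
  have e3 := E_sum (r := 1 / x) (z := 1 / x) Finset.univ (F := fun k => W i k * Z k j) (by positivity) (fun k _ => h1 k) hz
  have h2 : ∀ k, Zm W x i k * Zm Z x k j = ((E (W i k * Z k j) (1 / x) : ℝ) : ℂ) := by
    intro k
    rw [E_mul (sr_of hC (hW i k) hx) (sr_of hC (hZ k j) hx) hz, Complex.ofReal_mul]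
    show ((Pool.Agent.Y113.ev x (W i k) : ℝ) : ℂ) * ((Pool.Agent.Y113.ev x (Z k j) : ℝ) : ℂ) = _
    rw [Pool.Agent.Y37.GF.ev_eq, Pool.Agent.Y37.GF.ev_eq]
  rw [Finset.sum_congr rfl fun k _ => h2 k, ← Complex.ofReal_sum, ← e3, hinv]
  split_ifs
  · rw [E_one, Complex.ofReal_one]
  · have h := E_poly (0 : Polynomial ℚ) (1 / x)
    rw [Polynomial.coe_zero] at h
    rw [h]
    simp

lemma libz (K : IntermediateField ℚ ℂ) (δ : ℕ) {ι : Type} [Fintype ι] (z : ι → ℂ) {r : ℕ} (hr : r = 0) :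
    ∃ σ : Fin r → ι, Function.Injective σ ∧ LIb K δ (fun i => z (σ i)) := by
  obtain ⟨e, σ, hσ, -, hLI, -⟩ := exists_max K δ z
  have h1 : r ≤ e := by omega
  exact ⟨fun i => σ (Fin.castLE h1 i), hσ.comp (Fin.castLE_injective h1), hLI.comp (Fin.castLE h1) (Fin.castLE_injective h1)⟩

open PowerSeries in
theorem fin_main {f : Polynomial ℚ} {A : Fin n → Fin n → Polynomial ℚ} {Z W : Fin n → Fin n → ℚ⟦X⟧} (h : Dat f A Z W)
    (T : Fin d → Fin n × Fin n) (hT : AlgebraicIndependent (Polynomial ℚ) (fun i => Z (T i).1 (T i).2))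
    (hmax : ∀ p : Fin n × Fin n, ¬ AlgebraicIndependent (Polynomial ℚ)
      (fun i => Z ((Fin.cons p T : Fin (d + 1) → Fin n × Fin n) i).1 ((Fin.cons p T : Fin (d + 1) → Fin n × Fin n) i).2)) :
    ∃ G0 : ℕ, ∀ k δ D : ℕ,
      (∃ E : ℕ, ∀ H t : ℕ, (H + 2) ^ E ≤ t → ∀ g : Fin k → ℕ, SepN G0 g → (∀ l, g l ≤ H) →
        ∀ Ω Θ : Matrix (Fin n) (Fin n) ℂ, Ω * Θ = 1 →
        ∀ (K : IntermediateField ℚ ℂ) [FiniteDimensional ℚ K], finrank ℚ K ≤ D →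
          ∀ z : Fin k × Fin n × Fin n → ℂ,
            (∀ V : Submodule K ℂ, (∀ x, z x ∈ V) → ∀ l i j, (Ω * Zm Z ((t - g l : ℕ) : ℝ)) i j ∈ V) →
            ∃ σ : Fin ((k - 1) * d) → Fin k × Fin n × Fin n, Function.Injective σ ∧ LIb K δ (fun i => z (σ i))) ∧
      (∀ Ω Θ : Matrix (Fin n) (Fin n) ℂ, Ω * Θ = 1 → ∀ (s : ℕ) (ω : Fin s → ℂ),
        (∀ i j, IsAlgebraic (Algebra.adjoin ℚ (Set.range ω)) (Ω i j)) →
        ∃ E : ℕ, ∀ H t : ℕ, (H + 2) ^ E ≤ t → ∀ g : Fin k → ℕ, SepN G0 g → (∀ l, g l ≤ H) →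
        ∀ (K : IntermediateField ℚ ℂ) [FiniteDimensional ℚ K], finrank ℚ K ≤ D →
          ∀ z : Fin k × Fin n × Fin n → ℂ,
            (∀ V : Submodule K ℂ, (∀ x, z x ∈ V) → ∀ l i j, (Ω * Zm Z ((t - g l : ℕ) : ℝ)) i j ∈ V) →
            ∃ σ : Fin (k * d - s) → Fin k × Fin n × Fin n, Function.Injective σ ∧ LIb K δ (fun i => z (σ i))) := by
  classical
  obtain ⟨C, hC, hCZ, hCW⟩ := h.bound
  obtain ⟨G0, hG0, hcore⟩ := core h
  obtain ⟨t₁, ht₁⟩ := ref_gr h T hT hmax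
  choose Φ hΦ using ht₁
  obtain ⟨c₂, hc₂⟩ := Pool.Agent.Y678.HG.exists_two_pow (C + 1 + t₁)
  have hlarge : ∀ {E H t g : ℕ}, (H + 2) ^ (E + (c₂ + 1)) ≤ t → g ≤ H → (H + 2) ^ E ≤ t ∧ t₁ ≤ t - g ∧ C < ((t - g : ℕ) : ℝ) ∧
      ((t - g : ℕ) : ℝ) = (t : ℝ) - g := by
    intro E H t g ht hg
    have h5 := sub_large (c := c₂) (by omega : c₂ + 1 ≤ E + (c₂ + 1)) ht hg
    have h6 : (2 : ℝ) ^ c₂ ≤ ((t - g : ℕ) : ℝ) := by exact_mod_cast h5
    have h7 : C + 1 + t₁ ≤ ((t - g : ℕ) : ℝ) := hc₂.trans h6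
    have h8 : (0 : ℝ) ≤ t₁ := Nat.cast_nonneg _
    have h9 : g ≤ t := by
      have : 1 ≤ 2 ^ c₂ := Nat.one_le_two_pow
      omega
    refine ⟨(Nat.pow_le_pow_right (by omega) (by omega)).trans ht, ?_, by linarith, ?_⟩
    · have : (t₁ : ℝ) ≤ ((t - g : ℕ) : ℝ) := by linarith
      exact_mod_cast this
    · rw [Nat.cast_sub h9]
  have hcardι : ∀ k : ℕ, Fintype.card (Fin k × Fin n × Fin n) = k * (n * n) := fun k => by
    rw [Fintype.card_prod, Fintype.card_prod, Fintype.card_fin, Fintype.card_fin]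
  refine ⟨G0, fun k δ D => ⟨?_, ?_⟩⟩
  · obtain ⟨E, hE⟩ := hcore T hT k δ D d (n + 2) (k * (n * n)) Φ
    refine ⟨E + (c₂ + 1), ?_⟩
    intro H t hHt g hg hgH Ω Θ hΩ K _ hK z hz
    rcases Nat.eq_zero_or_pos k with hk | hk
    · refine libz K δ z ?_
      rw [hk]
      simp
    have h1 := (hlarge (E := E) (g := 0) hHt (Nat.zero_le _)).1
    have hkd : k * d - d = (k - 1) * d := by rw [Nat.sub_mul, one_mul]
    rw [← hkd]
    refine hE H t h1 g hg hgH K hK _ (hcardι k) z (fun c e W₁ h1 hzW hG => ?_)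
    set l0 : Fin k := ⟨0, hk⟩
    have hP := hz W₁ hzW
    obtain ⟨V', hV', hzv, hG'⟩ := hΦ c e K W₁ h1 hG (t - g l0) (hlarge (E := E) hHt (hgH l0)).2.1
    have h11 : (1 : ℂ) ∈ V' := hV' h1
    set P : Fin k → Matrix (Fin n) (Fin n) ℂ := fun l => Ω * Zm Z ((t - g l : ℕ) : ℝ) with hPdef
    have hPV : ∀ l i j, P l i j ∈ V' := fun l i j => hV' (hP l i j)
    have hY := inv_val h.inv hC hCZ hCW (hlarge (E := E) hHt (hgH l0)).2.2.1
    have hY' : Zm Z ((t - g l0 : ℕ) : ℝ) * Zm W ((t - g l0 : ℕ) : ℝ) = 1 := mul_eq_one_comm.1 hY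
    have hdet : (P l0).det ≠ 0 := by
      have h2 : Ω.det * Θ.det = 1 := by rw [← Matrix.det_mul, hΩ, Matrix.det_one]
      have h3 : (Zm Z ((t - g l0 : ℕ) : ℝ)).det * (Zm W ((t - g l0 : ℕ) : ℝ)).det = 1 := by
        rw [← Matrix.det_mul, hY', Matrix.det_one]
      rw [hPdef]
      show (Ω * Zm Z ((t - g l0 : ℕ) : ℝ)).det ≠ 0
      rw [Matrix.det_mul]
      exact mul_ne_zero (left_ne_zero_of_mul_eq_one h2) (left_ne_zero_of_mul_eq_one h3)
    refine ⟨V', (P l0).det, h11, hG', hdet, pow_mem_mono h11 (by omega) (det_mem _ (hPV l0)), fun l i => ?_⟩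
    have hmat : Zm Z ((t - g l0 : ℕ) : ℝ) * ((P l0).adjugate * P l) = (P l0).det • Zm Z ((t - g l : ℕ) : ℝ) := by
      have h2 : P l = P l0 * (Zm W ((t - g l0 : ℕ) : ℝ) * Zm Z ((t - g l : ℕ) : ℝ)) := by
        show Ω * Zm Z ((t - g l : ℕ) : ℝ) = Ω * Zm Z ((t - g l0 : ℕ) : ℝ) * _
        rw [← mul_assoc, mul_assoc Ω, hY', mul_one]
      rw [h2, ← mul_assoc (P l0).adjugate, Matrix.adjugate_mul, Matrix.smul_mul, one_mul, Matrix.mul_smul, ← mul_assoc, hY', one_mul]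
    have h2 : (P l0).det * zv Z ((t : ℝ) - g l) (T i) =
        (Zm Z ((t - g l0 : ℕ) : ℝ) * ((P l0).adjugate * P l)) (T i).1 (T i).2 := by
      rw [hmat, Matrix.smul_apply, smul_eq_mul, ← (hlarge (E := E) hHt (hgH l)).2.2.2]
      rfl
    rw [h2]
    have h3 := mul_mem' (V := V') (a := 1) (b := n + 1) (Zm Z ((t - g l0 : ℕ) : ℝ)) ((P l0).adjugate * P l)
      (fun a b => by rw [pow_one]; exact hzv (a, b))
      (fun a b => mul_mem' (V := V') (a := n) (b := 1) _ _ (fun a b => adj_mem h11 _ (hPV l0) a b) (fun a b => by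
        rw [pow_one]
        exact hPV l a b) a b) (T i).1 (T i).2
    rwa [show 1 + (n + 1) = n + 2 by ring] at h3
  · intro Ω Θ hΩ s ω hω
    choose a m l κ hl0 hrel hmem using fun p : Fin n × Fin n => alg_rel ω (hω p.1 p.2)
    choose Ψ hΨ using fun c e : ℕ => gr_algs2 c (e + s) (Finset.univ.sup a) (Finset.univ.sup fun p => m p + 1) (Fintype.card (Fin n × Fin n))
    obtain ⟨E, hE⟩ := hcore T hT k δ D s (n + 1) (k * (n * n)) Ψ
    refine ⟨E + (c₂ + 1), ?_⟩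
    intro H t hHt g hg hgH K _ hK z hz
    have h1 := (hlarge (E := E) (g := 0) hHt (Nat.zero_le _)).1
    refine hE H t h1 g hg hgH K hK _ (hcardι k) z (fun c e W₁ h1 hzW hG => ?_)
    have hP := hz W₁ hzW
    obtain ⟨V₁, hV₁, hωV, hG₁⟩ := gr_fam c s e W₁ h1 hG ω
    have h11 : (1 : ℂ) ∈ V₁ := hV₁ h1
    obtain ⟨V', hV', hΩV, hG'⟩ := hΨ c e K V₁ h11 hG₁ (Fin n × Fin n) rfl (fun p => Ω p.1 p.2) (fun p => by
      obtain ⟨h2, h3⟩ := hmem p K V₁ h11 hωV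
      have hle : a p ≤ Finset.univ.sup a := Finset.le_sup (Finset.mem_univ p)
      exact ⟨m p, l p, κ p, Finset.le_sup (f := fun p => m p + 1) (Finset.mem_univ p), hl0 p, pow_mem_mono h11 hle h2,
        fun j => pow_mem_mono h11 hle (h3 j), hrel p⟩)
    have h12 : (1 : ℂ) ∈ V' := hV' h11
    have hdet : Ω.det ≠ 0 := by
      have h2 : Ω.det * Θ.det = 1 := by rw [← Matrix.det_mul, hΩ, Matrix.det_one]
      exact left_ne_zero_of_mul_eq_one h2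
    refine ⟨V', Ω.det, h12, hG', hdet, pow_mem_mono h12 (by omega) (det_mem _ (fun i j => hΩV (i, j))), fun l i => ?_⟩
    have hmat : Ω.adjugate * (Ω * Zm Z ((t - g l : ℕ) : ℝ)) = Ω.det • Zm Z ((t - g l : ℕ) : ℝ) := by
      rw [← mul_assoc, Matrix.adjugate_mul, Matrix.smul_mul, one_mul]
    have h2 : Ω.det * zv Z ((t : ℝ) - g l) (T i) = (Ω.adjugate * (Ω * Zm Z ((t - g l : ℕ) : ℝ))) (T i).1 (T i).2 := by
      rw [hmat, Matrix.smul_apply, smul_eq_mul, ← (hlarge (E := E) hHt (hgH l)).2.2.2]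
      rfl
    rw [h2]
    exact mul_mem' (V := V') (a := n) (b := 1) _ _ (fun a b => adj_mem h12 _ (fun i j => hΩV (i, j)) a b) (fun a b => by
        rw [pow_one]
        exact hV' (hV₁ (hP l a b))) (T i).1 (T i).2

end Pool.Agent.Y124.TG
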