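import Pool.Agent.Y124.TG.Bw

/-!
# The growth of the space of the values at one point
-/

set_option autoImplicit false

open Module Finset

namespace Pool.Agent.Y124.TG

open Pool.Agent.Y124.TD Pool.Agent.Y113.GG Pool.Agent.Y118.HG

variable {n d : ℕ} {K : IntermediateField ℚ ℂ}

lemma mQ {W : Submodule K ℂ} (q : ℚ) {x : ℂ} (hx : x ∈ W) : (q : ℂ) * x ∈ W := by
  have h2 : (q : ℂ) * x = (algebraMap ℚ K q) • x := by
    rw [Algebra.smul_def]
    rfl
  rw [h2]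
  exact Submodule.smul_mem _ _ hx

/-- from the largest nonzero coefficient -/
lemma rel_of_coef {δ D : ℕ} {W : Submodule K ℂ} {w : ℂ} {c : ℕ → ℂ} (hcm : ∀ j, c j ∈ W ^ D)
    (hsum : ∑ j ∈ range (δ + 1), c j * w ^ j = 0) (hbd : ∀ j, c j ≠ 0 → j ≤ δ) (hne : ∃ j, c j ≠ 0) :
    ∃ (m : ℕ) (l : ℂ) (κ : ℕ → ℂ), m + 1 ≤ δ ∧ l ≠ 0 ∧ l ∈ W ^ D ∧ (∀ j, κ j ∈ W ^ D) ∧
      l * w ^ (m + 1) = ∑ j ∈ range (m + 1), κ j * w ^ j := by
  classical
  obtain ⟨j0, hj0⟩ := hne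
  set M := Nat.findGreatest (fun j => c j ≠ 0) δ with hM
  have hcM : c M ≠ 0 := Nat.findGreatest_spec (P := fun j => c j ≠ 0) (hbd j0 hj0) hj0
  have hMgt : ∀ j, M < j → c j = 0 := by
    intro j hj
    by_contra hne
    exact Nat.findGreatest_is_greatest hj (hbd j hne) hne
  have hMδ : M ≤ δ := Nat.findGreatest_le δ
  have hsum2 : ∑ j ∈ range (M + 1), c j * w ^ j = 0 := by
    rw [← hsum]
    refine Finset.sum_subset (Finset.range_mono (by omega)) fun j _ hj => ?_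
    rw [hMgt j (by
      rw [Finset.mem_range] at hj
      omega), zero_mul]
  rcases Nat.eq_zero_or_pos M with h0 | hpos
  · exfalso
    rw [h0] at hsum2 hcM
    simp only [zero_add, Finset.sum_range_one, pow_zero, mul_one] at hsum2
    exact hcM hsum2
  · obtain ⟨m, hm⟩ : ∃ m, M = m + 1 := ⟨M - 1, by omega⟩
    refine ⟨m, c M, fun j => -c j, by omega, hcM, hcm M, fun j => Submodule.neg_mem _ (hcm j), ?_⟩
    rw [Finset.sum_range_succ] at hsum2
    rw [← hm]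
    simp only [neg_mul, Finset.sum_neg_distrib]
    linear_combination hsum2

/-- the relation of a dependent number, over the rational numbers -/
lemma rel_of_depQ {δ e : ℕ} {W : Submodule K ℂ} (h1 : (1 : ℂ) ∈ W) {z : Fin e → ℂ} (hz : ∀ i, z i ∈ W)
    (h : LinearIndependent ℚ (fun s : Fin e → Fin (δ + 1) => ∏ i, z i ^ (s i : ℕ))) {w : ℂ}
    (g : (Fin (e + 1) → Fin (δ + 1)) → ℚ) (hg : ∑ s, (g s : ℂ) * ∏ i, (Fin.cons w z : Fin (e + 1) → ℂ) i ^ (s i : ℕ) = 0)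
    (i0 : Fin (e + 1) → Fin (δ + 1)) (hi0 : g i0 ≠ 0) : ∃ (m : ℕ) (l : ℂ) (κ : ℕ → ℂ), m + 1 ≤ δ ∧ l ≠ 0 ∧ l ∈ W ^ (δ * e) ∧
      (∀ j, κ j ∈ W ^ (δ * e)) ∧ l * w ^ (m + 1) = ∑ j ∈ range (m + 1), κ j * w ^ j := by
  classical
  -- the coefficients
  set c : ℕ → ℂ := fun j => if hj : j < δ + 1 then ∑ s : Fin e → Fin (δ + 1), (g (Fin.cons ⟨j, hj⟩ s) : ℂ) * ∏ i, z i ^ (s i : ℕ) else 0 with hc
  have hcm : ∀ j, c j ∈ W ^ (δ * e) := by
    intro j
    rw [hc]
    dsimp only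
    split_ifs with hj
    · refine Submodule.sum_mem _ fun s _ => mQ _ ?_
      have h2 := mem_pow_prod (W := W) Finset.univ (fun _ : Fin e => δ) (fun i => z i ^ (s i : ℕ)) (by
        intro i _
        refine pow_mem_mono h1 (Nat.lt_succ_iff.1 (s i).2) ?_
        have := mem_pow_pow (W := W) (d := 1) (x := z i) (by rw [pow_one]; exact hz i) (s i : ℕ)
        rwa [one_mul] at this)
      rw [Finset.sum_const, Finset.card_univ, Fintype.card_fin, smul_eq_mul, mul_comm] at h2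
      exact h2
    · exact Submodule.zero_mem _
  have hsum : ∑ j ∈ range (δ + 1), c j * w ^ j = 0 := by
    rw [← Fin.sum_univ_eq_sum_range (fun j => c j * w ^ j) (δ + 1), ← hg, ← Equiv.sum_comp (Fin.consEquiv fun _ : Fin (e + 1) => Fin (δ + 1)), Fintype.sum_prod_type]
    refine Finset.sum_congr rfl fun j _ => ?_
    have h2 : c (j : ℕ) = ∑ s : Fin e → Fin (δ + 1), (g (Fin.cons j s) : ℂ) * ∏ i, z i ^ (s i : ℕ) := by
      rw [hc]
      dsimp only
      rw [dif_pos j.2]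
    rw [h2, Finset.sum_mul]
    refine Finset.sum_congr rfl fun s _ => ?_
    have e0 : (Fin.consEquiv fun _ : Fin (e + 1) => Fin (δ + 1)) (j, s) = Fin.cons j s := rfl
    rw [e0, Fin.prod_univ_succ]
    simp only [Fin.cons_zero, Fin.cons_succ]
    ring
  have hne : ∃ j, c j ≠ 0 := by
    refine ⟨(i0 0 : ℕ), fun h0 => ?_⟩
    rw [hc] at h0
    dsimp only at h0
    rw [dif_pos (i0 0).2] at h0
    have h2 := (Fintype.linearIndependent_iff.1 h) (fun s => g (Fin.cons (i0 0) s)) (by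
      rw [← h0]
      refine Finset.sum_congr rfl fun s _ => ?_
      rw [Algebra.smul_def]
      rfl) (Fin.tail i0)
    apply hi0
    have h3 : (Fin.cons (i0 0) (Fin.tail i0) : Fin (e + 1) → Fin (δ + 1)) = i0 := Fin.cons_self_tail i0
    rw [← h3]
    exact h2
  have hbd : ∀ j, c j ≠ 0 → j ≤ δ := by
    intro j hj
    by_contra hlt
    apply hj
    rw [hc]
    dsimp only
    rw [dif_neg (by omega)]
  exact rel_of_coef hcm hsum hbd hne

/-- several algebraic numbers -/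
theorem gr_algs2 (c e d m₀ n : ℕ) : ∃ c' : ℕ, ∀ (K : IntermediateField ℚ ℂ) (W : Submodule K ℂ), (1 : ℂ) ∈ W → GR c e W →
    ∀ (ι : Type) [Fintype ι], Fintype.card ι = n → ∀ w : ι → ℂ, (∀ i, ∃ (m : ℕ) (l : ℂ) (κ : ℕ → ℂ), m + 1 ≤ m₀ ∧ l ≠ 0 ∧
      l ∈ W ^ d ∧ (∀ j, κ j ∈ W ^ d) ∧ l * w i ^ (m + 1) = ∑ j ∈ range (m + 1), κ j * w i ^ j) →
      ∃ W' : Submodule K ℂ, W ≤ W' ∧ (∀ i, w i ∈ W') ∧ GR c' e W' := by
  classical
  set B : ℕ := (m₀ + 1) * (1 + d) ^ e with hB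
  refine ⟨B ^ n * c, ?_⟩
  intro K W h1 h ι _ hn w hw
  have key : ∀ s : Finset ι, ∃ W' : Submodule K ℂ, W ≤ W' ∧ (∀ a ∈ s, w a ∈ W') ∧ GR (B ^ s.card * c) e W' := by
    intro s
    induction s using Finset.induction_on with
    | empty =>
      refine ⟨W, le_rfl, fun a ha => absurd ha (Finset.notMem_empty _), ?_⟩
      rw [Finset.card_empty, pow_zero, one_mul]
      exact h
    | insert a s ha ih =>
      obtain ⟨W', hW', hz', hG'⟩ := ih
      rw [Finset.card_insert_of_notMem ha]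
      obtain ⟨m, l, κ, hm, hl0, hl, hκ, hrel⟩ := hw a
      have h2 := gr_alg (hW' h1) hG' hl0 (mem_pow_le hW' hl) (fun j => mem_pow_le hW' (hκ j)) hrel
      refine ⟨W' ⊔ Submodule.span K {w a}, hW'.trans le_sup_left, fun b hb => ?_, h2.mono ?_⟩
      · rcases Finset.mem_insert.1 hb with rfl | hb
        · exact Submodule.mem_sup_right (Submodule.mem_span_singleton_self _)
        · exact Submodule.mem_sup_left (hz' b hb)
      · have h3 : (m + 1) * (1 + d) ^ e ≤ B := Nat.mul_le_mul_right _ (by omega)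
        calc (m + 1) * (1 + d) ^ e * (B ^ s.card * c) ≤ B * (B ^ s.card * c) := Nat.mul_le_mul_right _ h3
          _ = _ := by rw [pow_succ]; ring
  obtain ⟨W', hW', hz', hG'⟩ := key Finset.univ
  rw [Finset.card_univ, hn] at hG'
  exact ⟨W', hW', fun a => hz' a (Finset.mem_univ _), hG'⟩

open PowerSeries in
/-- the growth of the space of the values at one point is the transcendence degree of the entries -/
theorem ref_gr {f : Polynomial ℚ} {A : Fin n → Fin n → Polynomial ℚ} {Z W : Fin n → Fin n → ℚ⟦X⟧} (h : Dat f A Z W)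
    (T : Fin d → Fin n × Fin n) (hT : AlgebraicIndependent (Polynomial ℚ) (fun i => Z (T i).1 (T i).2))
    (hmax : ∀ p : Fin n × Fin n, ¬ AlgebraicIndependent (Polynomial ℚ)
      (fun i => Z ((Fin.cons p T : Fin (d + 1) → Fin n × Fin n) i).1 ((Fin.cons p T : Fin (d + 1) → Fin n × Fin n) i).2)) :
    ∃ t₁ : ℕ, ∀ c e : ℕ, ∃ c' : ℕ, ∀ (K : IntermediateField ℚ ℂ) (V : Submodule K ℂ), (1 : ℂ) ∈ V → GR c e V →
      ∀ t : ℕ, t₁ ≤ t → ∃ V' : Submodule K ℂ, V ≤ V' ∧ (∀ p, zv Z (t : ℝ) p ∈ V') ∧ GR c' (e + d) V' := by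
  classical
  obtain ⟨C, hC, hCZ, -⟩ := h.bound
  obtain ⟨G0, hG0, hbase⟩ := base_T h
  choose δ g s₀ hs₀ hg using fun p => dep_box (hmax p)
  choose t₂ ht₂ using fun p => large_ne (hs₀ p)
  choose E hE using fun p => hbase T hT (δ p) 1
  obtain ⟨r, hr⟩ := exists_nat_gt C
  refine ⟨(Finset.univ.sup t₂) + (Finset.univ.sup fun p => 2 ^ E p) + r + 1, fun c e => ?_⟩
  obtain ⟨c', hc'⟩ := gr_algs2 c (e + d) (Finset.univ.sup fun p => δ p * d) (Finset.univ.sup fun p => δ p) (Fintype.card (Fin n × Fin n))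
  refine ⟨c', ?_⟩
  intro K V h1 hV t ht
  obtain ⟨V₁, hV₁, hzV₁, hG₁⟩ := gr_fam c d e V h1 hV (fun i => zv Z (t : ℝ) (T i))
  have h11 : (1 : ℂ) ∈ V₁ := hV₁ h1
  obtain ⟨V', hV', hzV', hG'⟩ := hc' K V₁ h11 hG₁ (Fin n × Fin n) rfl (fun p => zv Z (t : ℝ) p) (fun p => by
    have hp1 : t₂ p ≤ t := by
      have := Finset.le_sup (f := t₂) (Finset.mem_univ p)
      omega
    have hp2 : 2 ^ E p ≤ t := by
      have := Finset.le_sup (f := fun p => 2 ^ E p) (Finset.mem_univ p)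
      omega
    have htr : C < (t : ℝ) := hr.trans_le (by
      have : r ≤ t := by omega
      exact_mod_cast this)
    have hli := hE p 0 t (by rw [zero_add]; exact hp2) (fun _ => 0) (fun l l' hll => absurd (Subsingleton.elim l l') hll) (fun _ => le_rfl)
    have hli2 : LinearIndependent ℚ (fun s : Fin d → Fin (δ p + 1) => ∏ i, zv Z (t : ℝ) (T i) ^ (s i : ℕ)) := by
      have h2 := hli.comp (fun (s : Fin d → Fin (δ p + 1)) (x : Fin 1 × Fin d) => s x.2) (by
        intro s s' hss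
        funext i
        exact congrFun hss (0, i))
      have h3 : (fun s : Fin d → Fin (δ p + 1) => ∏ i, zv Z (t : ℝ) (T i) ^ (s i : ℕ)) =
          (fun s : Fin 1 × Fin d → Fin (δ p + 1) => ∏ i, zv Z ((t : ℝ) - ((fun _ : Fin 1 => (0 : ℕ)) i.1 : ℕ)) (T i.2) ^ (s i : ℕ)) ∘
            (fun (s : Fin d → Fin (δ p + 1)) (x : Fin 1 × Fin d) => s x.2) := by
        funext s
        show _ = ∏ i : Fin 1 × Fin d, zv Z ((t : ℝ) - ((0 : ℕ) : ℝ)) (T i.2) ^ (s i.2 : ℕ)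
        rw [Fintype.prod_prod_type, Fin.prod_univ_one, Nat.cast_zero, sub_zero]
      rw [h3]
      exact h2
    have hrel := rel_val hC hCZ (Fin.cons p T : Fin (d + 1) → Fin n × Fin n) (g p) (hg p) htr
    have hcoef : ∀ s, ((Polynomial.aeval (1 / (t : ℝ)) (g p s) : ℝ) : ℂ) = ((Polynomial.eval (1 / (t : ℚ)) (g p s) : ℚ) : ℂ) := by
      intro s
      have h2 : (1 / (t : ℝ)) = algebraMap ℚ ℝ (1 / (t : ℚ)) := by simp
      rw [h2, Polynomial.aeval_algebraMap_apply, Polynomial.coe_aeval_eq_eval]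
      simp
    obtain ⟨m, l, κ, hm, hl0, hl, hκ, hrel2⟩ := rel_of_depQ (δ := δ p) h11 hzV₁ hli2 (w := zv Z (t : ℝ) p)
      (fun s => Polynomial.eval (1 / (t : ℚ)) (g p s)) (by
        rw [← hrel]
        refine Finset.sum_congr rfl fun s _ => ?_
        rw [hcoef]
        congr 1
        refine Finset.prod_congr rfl fun i _ => ?_
        refine Fin.cases ?_ (fun i => ?_) i
        · rw [Fin.cons_zero, Fin.cons_zero]
        · rw [Fin.cons_succ, Fin.cons_succ]) (s₀ p) (ht₂ p t hp1)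
    have hle : δ p * d ≤ Finset.univ.sup fun p => δ p * d := Finset.le_sup (f := fun p => δ p * d) (Finset.mem_univ p)
    exact ⟨m, l, κ, hm.trans (Finset.le_sup (f := fun p => δ p) (Finset.mem_univ p)), hl0, pow_mem_mono h11 hle hl,
      fun j => pow_mem_mono h11 hle (hκ j), hrel2⟩)
  exact ⟨V', hV₁.trans hV', hzV', hG'⟩

end Pool.Agent.Y124.TG
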